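import Pool.Agent.H89.RF.PTa
import Pool.Agent.H91.RF.TargetsA

/-!
# MP_609556_an, module PT: slopes of the one-dimensional solution in its tail, pulled case
-/

set_option autoImplicit false

open MeasureTheory Set Filter Topology Metric
open Pool.Agent.H91.RD Pool.Agent.H91.RF

namespace Pool.Agent.H89.RF

/-- the average slope: derivative at a point where it is `β s` -/
theorem avg_der {f : ℝ → ℝ} {ζ p v : ℝ → ℝ → ℝ} (hf : Continuous f)
    (hp : ContinuousOn (fun q : ℝ × ℝ => p q.1 q.2) (Ioi 0 ×ˢ Ioo 0 1))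
    (hv : ContinuousOn (fun q : ℝ × ℝ => v q.1 q.2) (Ioi 0 ×ˢ Ioo 0 1))
    (hpos : ∀ t > 0, ∀ s ∈ Ioo (0 : ℝ) 1, 0 < p t s)
    (hζ : ∀ t > 0, ∀ s ∈ Ioo (0 : ℝ) 1, HasDerivAt (fun r => ζ r s) (v t s) t)
    (hder : ∀ t > 0, ∀ s ∈ Ioo (0 : ℝ) 1, HasDerivAt (p t) (v t s - f s / p t s) s)
    {a : ℝ} (ha : 0 < a) {s : ℝ} (hs : s ∈ Ioo (0 : ℝ) 1) {β k A : ℝ} (hβ : 0 < β)
    (hfs : k * s ≤ f s) (hk : 0 ≤ k) (hA : ζ (2 * a) s - ζ a s ≤ A * a)
    (hq : (∫ τ in a..2 * a, p τ s) / a = β * s)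
    (hneg : (A - β) * β < k) :
    ∃ d < 0, HasDerivAt (fun s => (∫ τ in a..2 * a, p τ s) / a - β * s) d s := by
  have hab : a ≤ 2 * a := by linarith
  obtain ⟨hint, hd⟩ := hasDerivAt_avg hf hp hv hpos hder ha hab hs
  refine ⟨(∫ τ in a..2 * a, (v τ s - f s / p τ s)) / a - β, ?_,
    (hd.div_const a).sub (by simpa using (hasDerivAt_id s).const_mul β)⟩
  have hfs0 : 0 ≤ f s := (mul_nonneg hk hs.1.le).trans hfs
  have hs0 : 0 < s := hs.1
  have hq0 : 0 < β * s := mul_pos hβ hs0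
  have hcp : ContinuousOn (fun τ => p τ s) (uIcc a (2 * a)) := by
    rw [uIcc_of_le hab]
    refine hp.comp (f := fun τ : ℝ => ((τ, s) : ℝ × ℝ)) (by fun_prop) ?_
    intro τ hτ
    exact ⟨lt_of_lt_of_le ha hτ.1, hs⟩
  have hcv : ContinuousOn (fun τ => v τ s) (uIcc a (2 * a)) := by
    rw [uIcc_of_le hab]
    refine hv.comp (f := fun τ : ℝ => ((τ, s) : ℝ × ℝ)) (by fun_prop) ?_
    intro τ hτ
    exact ⟨lt_of_lt_of_le ha hτ.1, hs⟩
  have hip : IntervalIntegrable (fun τ => p τ s) volume a (2 * a) := hcp.intervalIntegrable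
  have hiv : IntervalIntegrable (fun τ => v τ s) volume a (2 * a) := hcv.intervalIntegrable
  have hvint : (∫ τ in a..2 * a, v τ s) = ζ (2 * a) s - ζ a s := by
    refine intervalIntegral.integral_eq_sub_of_hasDerivAt (f := fun r => ζ r s) ?_ hiv
    intro τ hτ
    rw [uIcc_of_le hab] at hτ
    exact hζ τ (lt_of_lt_of_le ha hτ.1) s hs
  have hpint : (∫ τ in a..2 * a, p τ s) = β * s * a := by
    rw [div_eq_iff ha.ne'] at hq
    exact hq
  have hle : (∫ τ in a..2 * a, (v τ s - f s / p τ s)) ≤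
      ∫ τ in a..2 * a, (v τ s - (2 * (f s / (β * s)) - f s / (β * s) ^ 2 * p τ s)) := by
    refine intervalIntegral.integral_mono_on hab hint
      (hiv.sub (intervalIntegrable_const.sub (hip.const_mul _))) fun τ hτ => ?_
    have hpp := hpos τ (lt_of_lt_of_le ha hτ.1) s hs
    have h1 : 2 / (β * s) - p τ s / (β * s) ^ 2 ≤ 1 / p τ s := by
      rw [div_sub_div _ _ hq0.ne' (pow_pos hq0 2).ne', div_le_div_iff₀ (by positivity) hpp]
      nlinarith [mul_nonneg hq0.le (sq_nonneg (β * s - p τ s))]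
    have h2 := mul_le_mul_of_nonneg_left h1 hfs0
    have e1 : f s * (2 / (β * s) - p τ s / (β * s) ^ 2) =
      2 * (f s / (β * s)) - f s / (β * s) ^ 2 * p τ s := by ring
    have e2 : f s * (1 / p τ s) = f s / p τ s := by ring
    rw [e1, e2] at h2
    linarith
  have hcalc : (∫ τ in a..2 * a, (v τ s - (2 * (f s / (β * s)) - f s / (β * s) ^ 2 * p τ s))) =
      (ζ (2 * a) s - ζ a s) - f s / (β * s) * a := by
    rw [intervalIntegral.integral_sub hiv (intervalIntegrable_const.sub (hip.const_mul _)),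
      intervalIntegral.integral_sub intervalIntegrable_const (hip.const_mul _),
      intervalIntegral.integral_const, intervalIntegral.integral_const_mul, hvint, hpint]
    rw [smul_eq_mul]
    field_simp
    ring
  have h3 : k / β ≤ f s / (β * s) := by
    rw [div_le_div_iff₀ hβ hq0]
    nlinarith
  have h4 : (∫ τ in a..2 * a, (v τ s - f s / p τ s)) ≤ (A - k / β) * a := by
    rw [hcalc] at hle
    nlinarith
  have h5 : (∫ τ in a..2 * a, (v τ s - f s / p τ s)) / a ≤ A - k / β := by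
    rw [div_le_iff₀ ha]
    exact h4
  have h6 : A - β < k / β := by
    rw [lt_div_iff₀ hβ]
    exact hneg
  linarith

/-- the parameter `e` -/
theorem exists_e {ε cc b1 : ℝ} (hε : 0 < ε) (hc : 0 < cc) (hb : 0 < b1) :
    ∃ e > 0, (6 + cc) * e ≤ ε ^ 2 / 64 ∧ e ≤ b1 / 2 := by
  refine ⟨min (ε ^ 2 / (64 * (6 + cc))) (b1 / 2), by positivity, ?_, min_le_right _ _⟩
  have h1 := min_le_left (ε ^ 2 / (64 * (6 + cc))) (b1 / 2)
  have h2 : (6 + cc) * (ε ^ 2 / (64 * (6 + cc))) = ε ^ 2 / 64 := by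
    field_simp
  rw [← h2]
  exact mul_le_mul_of_nonneg_left h1 (by linarith)

/-- lower position of a level -/
theorem pos_low {Pv ζ : ℝ → ℝ → ℝ} {cc e b1 a m : ℝ} (hc : 0 < cc) (he : 0 < e)
    (ha : 0 < a)
    (hB : ∀ η ∈ Icc (0 : ℝ) 1, Real.exp (-((cc * η / 2 + η ^ 2 / 2 + e) * a)) ≤
      Pv a ((cc + η) * a))
    (hA : b1 - e ≤ Pv a ((cc - e) * a)) (hanti : StrictAnti (Pv a))
    (hs : Pv a (ζ a (Real.exp (-(m * a)))) = Real.exp (-(m * a)))
    (hm1 : m ≤ cc ^ 2 / 2) (hm2 : 2 * m ≤ cc)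
    (hsb : Real.exp (-(m * a)) ≤ b1 - e) :
    (cc + 2 / cc * m - 2 / cc * e - 4 / cc ^ 3 * m ^ 2 - e) * a ≤
      ζ a (Real.exp (-(m * a))) := by
  rcases le_or_gt e m with hem | hem
  · obtain ⟨x, hx⟩ : ∃ x, x = m - e := ⟨_, rfl⟩
    have hx0 : 0 ≤ x := by linarith
    have hxm : x ≤ m := by linarith
    obtain ⟨η, hη⟩ : ∃ η, η = 2 / cc * x - 4 / cc ^ 3 * x ^ 2 := ⟨_, rfl⟩
    have e1 : η = 2 / cc * x * (1 - 2 / cc ^ 2 * x) := by
      rw [hη]
      field_simp
      ring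
    have h1 : 2 / cc ^ 2 * x ≤ 1 := by
      rw [div_mul_eq_mul_div, div_le_one (by positivity)]
      linarith
    have h0 : 0 ≤ 2 / cc ^ 2 * x := by positivity
    have h2 : 0 ≤ 2 / cc * x := by positivity
    have h2' : 2 / cc * x ≤ 1 := by
      rw [div_mul_eq_mul_div, div_le_one hc]
      linarith
    have hη0 : 0 ≤ η := by
      rw [e1]
      exact mul_nonneg h2 (by linarith)
    have hη2 : η ≤ 2 / cc * x := by
      rw [e1]
      nlinarith
    have h3 := hB η ⟨hη0, hη2.trans h2'⟩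
    have h4 : cc * η / 2 + η ^ 2 / 2 + e ≤ m := by
      have h5 : cc * η / 2 = x - 2 / cc ^ 2 * x ^ 2 := by
        rw [hη]
        field_simp
        ring
      have h6 : η ^ 2 ≤ (2 / cc * x) ^ 2 := pow_le_pow_left₀ hη0 hη2 2
      have h7 : (2 / cc * x) ^ 2 / 2 = 2 / cc ^ 2 * x ^ 2 := by
        field_simp
      linarith
    have h8 : Real.exp (-(m * a)) ≤ Pv a ((cc + η) * a) := by
      refine le_trans (Real.exp_le_exp.2 ?_) h3
      nlinarith
    rw [← hs] at h8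
    have h9 := hanti.le_iff_ge.1 h8
    refine le_trans ?_ h9
    refine mul_le_mul_of_nonneg_right ?_ ha.le
    have h10 : 4 / cc ^ 3 * x ^ 2 ≤ 4 / cc ^ 3 * m ^ 2 :=
      mul_le_mul_of_nonneg_left (pow_le_pow_left₀ hx0 hxm 2) (by positivity)
    have h11 : 2 / cc * x = 2 / cc * m - 2 / cc * e := by
      rw [hx]
      ring
    linarith
  · have h8 : Real.exp (-(m * a)) ≤ Pv a ((cc - e) * a) := hsb.trans hA
    rw [← hs] at h8
    have h9 := hanti.le_iff_ge.1 h8
    refine le_trans ?_ h9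
    refine mul_le_mul_of_nonneg_right ?_ ha.le
    have h10 : 0 ≤ 4 / cc ^ 3 * m ^ 2 := by positivity
    have h11 : 2 / cc * m ≤ 2 / cc * e := mul_le_mul_of_nonneg_left hem.le (by positivity)
    linarith

/-- upper position of a level -/
theorem pos_up {Pv ζ : ℝ → ℝ → ℝ} {cc e a m : ℝ} {s : ℝ} (hc : 0 < cc) (he : 0 < e)
    (ha : 0 < a) (hU : ∀ z, cc * a ≤ z → z ≤ (cc + 2) * a →
      Pv a z ≤ Real.exp (-(cc / 2 * (z - cc * a)) + e * a))
    (hanti : StrictAnti (Pv a)) (hs : Pv a (ζ a s) = s) (hm0 : 0 ≤ m) (hm1 : m + e ≤ cc)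
    (hsm : Real.exp (-(m * a)) ≤ s) :
    ζ a s ≤ (cc + 2 / cc * (m + e)) * a := by
  have h0 : 0 ≤ 2 / cc * (m + e) := by positivity
  have h1 : 2 / cc * (m + e) ≤ 2 := by
    rw [div_mul_eq_mul_div, div_le_iff₀ hc]
    linarith
  have h2 := hU ((cc + 2 / cc * (m + e)) * a) (by nlinarith) (by nlinarith)
  have h3 : -(cc / 2 * ((cc + 2 / cc * (m + e)) * a - cc * a)) + e * a = -(m * a) := by
    field_simp
    ring
  rw [h3] at h2
  have h4 : Pv a ((cc + 2 / cc * (m + e)) * a) ≤ Pv a (ζ a s) := by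
    rw [hs]
    exact h2.trans hsm
  exact hanti.le_iff_ge.1 h4

theorem pf_PT (hLVL : T_LVL) (hLBX : T_LBX) (hMC : T_MC) (hMA : T_MA) (hPSTG : T_PSTG) :
    T_PT := by
  intro f K J b c y Pv hR hL hT hS hkap ε0 hε0
  have hc : 0 < c 0 := (hT.ext 0 hT.J0).cpos
  have hb1 : 0 < b 1 := by
    have := hT.lt 0 hT.J0
    rwa [hT.b0] at this
  obtain ⟨hStg, hinf⟩ := hPSTG f K J b c y Pv hR hL hT hS
  have hfc : Continuous f := by
    have : LipschitzWith (Real.toNNReal K) f := LipschitzWith.of_dist_le_mul fun x y => by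
      rw [Real.dist_eq, Real.dist_eq, Real.coe_toNNReal _ hL.K0.le]
      exact hL.lip x y
    exact this.continuous
  generalize hcc : c 0 = cc at *
  obtain ⟨ε, hε⟩ : ∃ ε, ε = min ε0 (min (cc / 4) 1) := ⟨_, rfl⟩
  have hεpos : 0 < ε := by
    rw [hε]
    positivity
  have hεε : ε ≤ ε0 := by
    rw [hε]
    exact min_le_left _ _
  have hεc : ε ≤ cc / 4 := by
    rw [hε]
    exact (min_le_right _ _).trans (min_le_left _ _)
  have hε1 : ε ≤ 1 := by
    rw [hε]
    exact (min_le_right _ _).trans (min_le_right _ _)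
  clear hε
  obtain ⟨e, he, he1, heb⟩ := exists_e hεpos hc hb1
  have he2 : e ≤ ε ^ 2 / 384 := by linarith [mul_nonneg hc.le he.le]
  have hεp : 0 < ε ^ 2 := by positivity
  have hεsq : ε ^ 2 ≤ ε := by
    rw [sq]
    exact mul_le_of_le_one_left hεpos.le hε1
  have hε2 : ε ^ 2 ≤ ε * cc / 4 := by
    have := mul_le_mul_of_nonneg_left hεc hεpos.le
    rw [sq]
    linarith
  have hε3 : ε * cc ≤ cc ^ 2 / 4 := by
    have := mul_le_mul_of_nonneg_right hεc hc.le
    rw [sq]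
    linarith
  obtain ⟨T1, hT1, hU⟩ := hMC 1 f K _ _ J b c y hStg hT e he
  obtain ⟨T2, hT2, hA⟩ := hMA 1 f K _ _ J b c y hStg hT 0 hT.J0 e he
  obtain ⟨T3, hT3, hB⟩ := hLBX f K J b c y Pv hR hL hT hS (by rw [hcc]; exact hkap) e he
  rw [hcc] at hU hA hB
  obtain ⟨lam0, hlam0, hlam1, hflow⟩ := f_lower hR (show 0 < ε ^ 2 / 4 by positivity)
  obtain ⟨ζ, p, v, hz, hpc, hvc, hmono⟩ := hLVL f K Pv hR hL hS
  have hanti : ∀ t > 0, StrictAnti (Pv t) := fun t ht => strictAnti_of_deriv_neg (hS.neg t ht)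
  refine ⟨min lam0 (b 1 / 2), by positivity, ε ^ 2 / 64, by positivity,
    2 * max T1 (max T2 T3), by positivity, fun t ht z hz1 hz2 => ?_⟩
  obtain ⟨a, rfl⟩ : ∃ a, t = 2 * a := ⟨t / 2, by ring⟩
  have ha : max T1 (max T2 T3) ≤ a := by linarith
  have ha1 : T1 ≤ a := (le_max_left _ _).trans ha
  have ha2 : T2 ≤ a := ((le_max_left _ _).trans (le_max_right _ _)).trans ha
  have ha3 : T3 ≤ a := ((le_max_right _ _).trans (le_max_right _ _)).trans ha
  have ha0 : 0 < a := lt_of_lt_of_le hT1 ha1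
  have h2a0 : 0 < 2 * a := by linarith
  -- one-dimensional forms
  have hU' : ∀ t ≥ T1, ∀ z, cc * t ≤ z → z ≤ (cc + 2) * t →
      Pv t z ≤ Real.exp (-(cc / 2 * (z - cc * t)) + e * t) := by
    intro t ht z h1 h2
    have hz0 : 0 ≤ z := le_trans (mul_nonneg hc.le (hT1.le.trans ht)) h1
    have hx := hinf (WithLp.toLp 2 (fun _ => z) : E 1)
    have hx' : infDist (WithLp.toLp 2 (fun _ => z) : E 1) {x : E 1 | x 0 < 0} = z := by
      rw [hx]
      exact max_eq_left hz0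
    have := hU t ht (WithLp.toLp 2 (fun _ => z) : E 1) (by rw [hx']; exact h1)
      (by rw [hx']; exact h2)
    rw [hx'] at this
    exact this
  have hec : e ≤ cc := by linarith
  have hA' : b 1 - e ≤ Pv a ((cc - e) * a) := by
    have hz0 : 0 ≤ (cc - e) * a := mul_nonneg (by linarith) ha0.le
    have hx := hinf (WithLp.toLp 2 (fun _ => (cc - e) * a) : E 1)
    have hx' : infDist (WithLp.toLp 2 (fun _ => (cc - e) * a) : E 1) {x : E 1 | x 0 < 0} =
        (cc - e) * a := by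
      rw [hx]
      exact max_eq_left hz0
    exact hA a ha2 (WithLp.toLp 2 (fun _ => (cc - e) * a) : E 1) (by rw [hx'])
  by_contra hcon
  push Not at hcon
  obtain ⟨s1, hs1⟩ : ∃ s1, s1 = Pv (2 * a) z := ⟨_, rfl⟩
  rw [← hs1] at hz1 hz2 hcon
  have hs1pos : 0 < s1 := lt_of_lt_of_le (Real.exp_pos _) hz1
  have hs1l : s1 ≤ lam0 := hz2.trans (min_le_left _ _)
  have hs1b : s1 ≤ b 1 / 2 := hz2.trans (min_le_right _ _)
  have hs1m : s1 ∈ Ioo (0 : ℝ) 1 := ⟨hs1pos, lt_of_le_of_lt hs1l hlam1⟩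
  have hζ1 : ζ (2 * a) s1 = z := by
    apply (hanti (2 * a) h2a0).injective
    rw [(hz (2 * a) h2a0 s1 hs1m).1, hs1]
  have hp1 : (cc / 2 + ε) * s1 < p (2 * a) s1 := by
    rw [(hz (2 * a) h2a0 s1 hs1m).2.1, hζ1]
    refine lt_of_le_of_lt ?_ hcon
    exact mul_le_mul_of_nonneg_right (by linarith) hs1pos.le
  obtain ⟨β, hβ⟩ : ∃ β, β = cc / 2 + ε := ⟨_, rfl⟩
  rw [← hβ] at hp1
  have hβ0 : 0 < β := by
    rw [hβ]
    positivity
  have hβc : β ≤ 3 / 4 * cc := by
    rw [hβ]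
    linarith
  obtain ⟨M, hM⟩ : ∃ M, M = cc * (ε / 4) / 2 + (ε / 4) ^ 2 / 2 + e := ⟨_, rfl⟩
  have hM0 : 0 < M := by
    rw [hM]
    positivity
  have hMc : M ≤ cc * (ε / 4) := by
    rw [hM]
    linarith
  have hMlow : ε ^ 2 / 2 ≤ M := by
    rw [hM]
    linarith
  have hεcc : cc * (ε / 4) ≤ cc / 4 := by linarith [mul_le_of_le_one_right hc.le hε1]
  have hεcc2 : cc * (ε / 4) ≤ cc ^ 2 / 16 := by linarith
  obtain ⟨smin, hsmin⟩ : ∃ x, x = Real.exp (-(M * a)) := ⟨_, rfl⟩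
  have hsmin0 : 0 < smin := by
    rw [hsmin]
    exact Real.exp_pos _
  have hsmin1 : smin ≤ s1 := by
    rw [hsmin]
    refine le_trans (Real.exp_le_exp.2 ?_) hz1
    linarith [mul_le_mul_of_nonneg_right hMlow ha0.le, mul_pos hεp ha0]
  -- positions of the levels
  have hAb : ∀ s ∈ Icc smin s1, ζ (2 * a) s - ζ a s ≤
      (cc + (6 / cc + 1) * e + 4 / cc * (ε / 4) ^ 2) * a := by
    intro s hs
    have hs0 : 0 < s := hsmin0.trans_le hs.1
    have hsm : s ∈ Ioo (0 : ℝ) 1 := ⟨hs0, lt_of_le_of_lt hs.2 hs1m.2⟩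
    obtain ⟨m, hm⟩ : ∃ m, m = -Real.log s / a := ⟨_, rfl⟩
    have hma : m * a = -Real.log s := by
      rw [hm]
      field_simp
    have hsexp : s = Real.exp (-(m * a)) := by
      rw [hma, neg_neg, Real.exp_log hs0]
    have hm0 : 0 ≤ m := by
      rw [hm]
      exact div_nonneg (neg_nonneg.2 (Real.log_nonpos hs0.le hsm.2.le)) ha0.le
    have hmM : m ≤ M := by
      have h1 := hs.1
      rw [hsmin, hsexp, Real.exp_le_exp] at h1
      exact le_of_mul_le_mul_right (by linarith) ha0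
    have hlow := pos_low (Pv := Pv) (ζ := ζ) (b1 := b 1) (m := m) hc he ha0
      (fun η hη => hB a ha3 η hη) hA' (hanti a ha0)
      (by rw [← hsexp]; exact (hz a ha0 s hsm).1) (by linarith) (by linarith)
      (by rw [← hsexp]; linarith [hs.2])
    rw [← hsexp] at hlow
    have hup := pos_up (Pv := Pv) (ζ := ζ) (m := m / 2) (s := s) hc he h2a0
      (fun z h1 h2 => hU' (2 * a) (by linarith) z h1 h2) (hanti (2 * a) h2a0)
      (hz (2 * a) h2a0 s hsm).1 (by linarith) (by linarith)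
      (by rw [hsexp]; exact Real.exp_le_exp.2 (by linarith))
    have hmm : m ^ 2 ≤ (cc * (ε / 4)) ^ 2 := pow_le_pow_left₀ hm0 (hmM.trans hMc) 2
    have h4 : 4 / cc ^ 3 * m ^ 2 ≤ 4 / cc * (ε / 4) ^ 2 := by
      refine le_trans (mul_le_mul_of_nonneg_left hmm (by positivity)) (le_of_eq ?_)
      field_simp
    have e1 : (cc + 2 / cc * (m / 2 + e)) * (2 * a) = (2 * cc + 2 / cc * m + 4 / cc * e) * a := by
      ring
    have e2 : (cc + (6 / cc + 1) * e + 4 / cc * (ε / 4) ^ 2) * a =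
        (2 * cc + 2 / cc * m + 4 / cc * e) * a -
        (cc + 2 / cc * m - 2 / cc * e - 4 / cc * (ε / 4) ^ 2 - e) * a := by ring
    have e3 : (cc + 2 / cc * m - 2 / cc * e - 4 / cc * (ε / 4) ^ 2 - e) * a ≤
        (cc + 2 / cc * m - 2 / cc * e - 4 / cc ^ 3 * m ^ 2 - e) * a :=
      mul_le_mul_of_nonneg_right (by linarith) ha0.le
    rw [e1] at hup
    rw [e2]
    linarith
  -- average
  have hsub : ∀ s ∈ Icc smin s1, s ∈ Ioo (0 : ℝ) 1 := fun s hs =>
    ⟨hsmin0.trans_le hs.1, lt_of_le_of_lt hs.2 hs1m.2⟩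
  have hab : a ≤ 2 * a := by linarith
  have hpint : ∀ s ∈ Ioo (0 : ℝ) 1, IntervalIntegrable (fun τ => p τ s) volume a (2 * a) := by
    intro s hs
    refine ContinuousOn.intervalIntegrable ?_
    rw [uIcc_of_le hab]
    refine hpc.comp (f := fun τ : ℝ => ((τ, s) : ℝ × ℝ)) (by fun_prop) ?_
    intro τ hτ
    exact ⟨lt_of_lt_of_le ha0 hτ.1, hs⟩
  have hg := pos_of_contact (a := smin) (b := s1)
    (g := fun s => (∫ τ in a..2 * a, p τ s) / a - β * s) (by
      intro s hs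
      have h1 := (hasDerivAt_avg hfc hpc hvc (fun t ht s hs => (hz t ht s hs).2.2.1)
        (fun t ht s hs => (hz t ht s hs).2.2.2.2) ha0 hab (hsub s hs)).2.continuousAt
      exact ((h1.div_const a).sub (continuousAt_const.mul continuousAt_id)).continuousWithinAt) (by
      have h1 : (∫ _ in a..2 * a, p (2 * a) s1) ≤ ∫ τ in a..2 * a, p τ s1 := by
        refine intervalIntegral.integral_mono_on hab intervalIntegrable_const (hpint s1 hs1m)
          fun τ hτ => ?_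
        exact hmono s1 hs1m τ (2 * a) (lt_of_lt_of_le ha0 hτ.1) hτ.2
      rw [intervalIntegral.integral_const, smul_eq_mul] at h1
      have h2 : p (2 * a) s1 ≤ (∫ τ in a..2 * a, p τ s1) / a := by
        rw [le_div_iff₀ ha0]
        linarith
      show 0 < (∫ τ in a..2 * a, p τ s1) / a - β * s1
      linarith) (by
      intro s hs hgs
      have hs' : s ∈ Icc smin s1 := ⟨hs.1, hs.2.le⟩
      have hfs := hflow s ⟨(hsub s hs').1.le, hs'.2.trans hs1l⟩
      refine avg_der hfc hpc hvc (fun t ht s hs => (hz t ht s hs).2.2.1)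
        (fun t ht s hs => (hz t ht s hs).2.2.2.1) (fun t ht s hs => (hz t ht s hs).2.2.2.2)
        ha0 (hsub s hs') hβ0 hfs ?_ (hAb s hs') (by linarith) ?_
      · linarith
      · have h1 : ((6 / cc + 1) * e + 4 / cc * (ε / 4) ^ 2) * β ≤
            (6 + cc) * e + 4 * (ε / 4) ^ 2 := by
          have h2 : 0 ≤ (6 / cc + 1) * e + 4 / cc * (ε / 4) ^ 2 := by positivity
          refine le_trans (mul_le_mul_of_nonneg_left (show β ≤ cc by linarith) h2) (le_of_eq ?_)
          field_simp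
        have h3 : (cc - β) * β = cc ^ 2 / 4 - ε ^ 2 := by
          rw [hβ]
          ring
        have h4 : (cc + (6 / cc + 1) * e + 4 / cc * (ε / 4) ^ 2 - β) * β =
            (cc - β) * β + ((6 / cc + 1) * e + 4 / cc * (ε / 4) ^ 2) * β := by ring
        rw [h4, h3]
        linarith)
  -- slopes at time a
  have hslope : ∀ s ∈ Icc smin s1, β * s < p a s := by
    intro s hs
    have h1 : (∫ τ in a..2 * a, p τ s) ≤ ∫ _ in a..2 * a, p a s := by
      refine intervalIntegral.integral_mono_on hab (hpint s (hsub s hs)) intervalIntegrable_const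
        fun τ hτ => ?_
      exact hmono s (hsub s hs) a τ ha0 hτ.1
    rw [intervalIntegral.integral_const, smul_eq_mul] at h1
    have h2 : (∫ τ in a..2 * a, p τ s) / a ≤ p a s := by
      rw [div_le_iff₀ ha0]
      linarith
    have h3 : 0 < (∫ τ in a..2 * a, p τ s) / a - β * s := hg s hs
    linarith
  have hsminm : smin ∈ Ioo (0 : ℝ) 1 := hsub smin ⟨le_refl _, hsmin1⟩
  have hz12 : ζ a s1 ≤ ζ a smin := by
    rw [← (hanti a ha0).le_iff_ge, (hz a ha0 s1 hs1m).1, (hz a ha0 smin hsminm).1]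
    exact hsmin1
  have hant : AntitoneOn (fun z => Pv a z * Real.exp (β * z)) (Icc (ζ a s1) (ζ a smin)) := by
    have hdiff : ∀ z, HasDerivAt (fun z => Pv a z * Real.exp (β * z))
        (deriv (Pv a) z * Real.exp (β * z) + Pv a z * (Real.exp (β * z) * β)) z := by
      intro z
      have h1 : HasDerivAt (Pv a) (deriv (Pv a) z) z :=
        ((hS.c2 a ha0).differentiable (by norm_num) z).hasDerivAt
      have h2 : HasDerivAt (fun z => Real.exp (β * z)) (Real.exp (β * z) * β) z := by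
        simpa using ((hasDerivAt_id z).const_mul β).exp
      exact h1.mul h2
    refine antitoneOn_of_deriv_nonpos (convex_Icc _ _)
      (fun z _ => (hdiff z).continuousAt.continuousWithinAt)
      (fun z _ => (hdiff z).differentiableAt.differentiableWithinAt) ?_
    intro z hzz
    rw [interior_Icc] at hzz
    rw [(hdiff z).deriv]
    have hsz : Pv a z ∈ Icc smin s1 := by
      constructor
      · rw [← (hz a ha0 smin hsminm).1]
        exact (hanti a ha0).antitone hzz.2.le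
      · rw [← (hz a ha0 s1 hs1m).1]
        exact (hanti a ha0).antitone hzz.1.le
    have hζz : ζ a (Pv a z) = z := by
      apply (hanti a ha0).injective
      exact (hz a ha0 _ (hsub _ hsz)).1
    have h3 := hslope _ hsz
    rw [(hz a ha0 _ (hsub _ hsz)).2.1, hζz] at h3
    have h4 := Real.exp_pos (β * z)
    linarith [mul_pos h4 (sub_pos.2 h3)]
  have h1 := hant ⟨le_refl _, hz12⟩ ⟨hz12, le_refl _⟩ hz12
  simp only [(hz a ha0 s1 hs1m).1, (hz a ha0 smin hsminm).1] at h1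
  have h2 : Real.exp (-(M * a) + β * ζ a smin) ≤ Real.exp (β * ζ a s1) := by
    rw [Real.exp_add, ← hsmin]
    refine h1.trans ?_
    exact mul_le_of_le_one_left (Real.exp_pos _).le hs1m.2.le
  rw [Real.exp_le_exp] at h2
  -- positions of the two ends
  have h3 : (cc + ε / 4) * a ≤ ζ a smin := by
    have h4 := hB a ha3 (ε / 4) ⟨by positivity, by linarith⟩
    rw [← hM, ← hsmin] at h4
    have h5 : Pv a (ζ a smin) ≤ Pv a ((cc + ε / 4) * a) := by
      rw [(hz a ha0 smin hsminm).1]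
      exact h4
    exact (hanti a ha0).le_iff_ge.1 h5
  have h4 : ζ a s1 ≤ (cc + 2 / cc * (ε ^ 2 / 32 + e)) * a := by
    refine pos_up (Pv := Pv) (ζ := ζ) (m := ε ^ 2 / 32) (s := s1) hc he ha0
      (fun z h1 h2 => hU' a ha1 z h1 h2) (hanti a ha0) (hz a ha0 s1 hs1m).1 (by positivity)
      (by linarith) (le_trans (le_of_eq ?_) hz1)
    congr 1
    ring
  have h5 : β * ((ε / 4 - 2 / cc * (ε ^ 2 / 32 + e)) * a) ≤ M * a := by
    have h6 : (ε / 4 - 2 / cc * (ε ^ 2 / 32 + e)) * a ≤ ζ a smin - ζ a s1 := by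
      have : (ε / 4 - 2 / cc * (ε ^ 2 / 32 + e)) * a =
        (cc + ε / 4) * a - (cc + 2 / cc * (ε ^ 2 / 32 + e)) * a := by ring
      rw [this]
      linarith
    have h7 := mul_le_mul_of_nonneg_left h6 hβ0.le
    linarith
  have h6 : β * (ε / 4 - 2 / cc * (ε ^ 2 / 32 + e)) ≤ M := by
    have : β * ((ε / 4 - 2 / cc * (ε ^ 2 / 32 + e)) * a) =
      (β * (ε / 4 - 2 / cc * (ε ^ 2 / 32 + e))) * a := by ring
    rw [this] at h5
    exact le_of_mul_le_mul_right h5 ha0
  have h7 : β * (2 / cc * (ε ^ 2 / 32 + e)) ≤ 3 / 2 * (ε ^ 2 / 32 + e) := by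
    have h8 : β * (2 / cc) ≤ 3 / 2 := by
      rw [mul_div_assoc', div_le_iff₀ hc]
      linarith
    have h9 : 0 ≤ ε ^ 2 / 32 + e := by positivity
    calc β * (2 / cc * (ε ^ 2 / 32 + e)) = (β * (2 / cc)) * (ε ^ 2 / 32 + e) := by ring
      _ ≤ 3 / 2 * (ε ^ 2 / 32 + e) := mul_le_mul_of_nonneg_right h8 h9
  have h8 : β * (ε / 4) = cc * (ε / 4) / 2 + ε * (ε / 4) := by
    rw [hβ]
    ring
  rw [mul_sub] at h6
  linarith

end Pool.Agent.H89.RF
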