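import Pool.Agent.H91.RF.TargetsR

/-!
# MP_609556_an, module PT, part 1: elementary lemmas
-/

set_option autoImplicit false

open MeasureTheory Set Filter Topology Metric

namespace Pool.Agent.H89.RF

/-- first contact lemma -/
theorem pos_of_contact {g : ℝ → ℝ} {a b : ℝ} (hc : ContinuousOn g (Icc a b))
    (hb : 0 < g b) (h : ∀ x ∈ Ico a b, g x = 0 → ∃ d < 0, HasDerivAt g d x) :
    ∀ x ∈ Icc a b, 0 < g x := by
  by_contra hcon
  push Not at hcon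
  obtain ⟨x0, hx0, hg0⟩ := hcon
  have hScl : IsClosed (Icc a b ∩ g ⁻¹' Iic 0) := hc.preimage_isClosed_of_isClosed isClosed_Icc
    isClosed_Iic
  have hSc : IsCompact (Icc a b ∩ g ⁻¹' Iic 0) :=
    (isCompact_Icc (a := a) (b := b)).of_isClosed_subset hScl inter_subset_left
  obtain ⟨m, ⟨hm1, hm2⟩, hmax⟩ := hSc.exists_isGreatest ⟨x0, hx0, hg0⟩
  have hm2' : g m ≤ 0 := hm2
  have hmb : m < b := by
    rcases lt_or_eq_of_le hm1.2 with h1 | h1
    · exact h1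
    · rw [h1] at hm2'
      linarith
  have hgm : g m = 0 := by
    rcases lt_or_eq_of_le hm2' with h1 | h1
    · exfalso
      have hc2 : ContinuousOn g (Icc m b) := hc.mono (Icc_subset_Icc_left hm1.1)
      obtain ⟨x, hx, hx0⟩ := intermediate_value_Icc hmb.le hc2 (show (0 : ℝ) ∈ Icc (g m) (g b) from
        ⟨h1.le, hb.le⟩)
      have hxm : x ≤ m := hmax ⟨⟨hm1.1.trans hx.1, hx.2⟩, by
        show g x ≤ 0
        exact hx0.le⟩
      have : x = m := le_antisymm hxm hx.1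
      rw [this] at hx0
      linarith
    · exact h1
  obtain ⟨d, hd, hder⟩ := h m ⟨hm1.1, hmb⟩ hgm
  have h1 := hasDerivAt_iff_tendsto_slope.1 hder
  have h2 : ∀ᶠ x in 𝓝[>] m, slope g m x < 0 := by
    have h3 := h1.eventually (Iio_mem_nhds hd)
    exact h3.filter_mono (nhdsWithin_mono _ (by
      intro x hx
      exact ne_of_gt hx))
  have h3 : ∀ᶠ x in 𝓝[>] m, x ∈ Ioo m b := Ioo_mem_nhdsGT hmb
  obtain ⟨x, hx1, hx2⟩ := (h2.and h3).exists
  rw [slope_def_field] at hx1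
  have hxm : 0 < x - m := by linarith [hx2.1]
  rw [div_lt_iff₀ hxm, zero_mul, hgm] at hx1
  have := hmax ⟨⟨hm1.1.trans hx2.1.le, hx2.2.le⟩, by
    show g x ≤ 0
    linarith⟩
  linarith [hx2.1]

/-- averages in the level variable: differentiation under the integral -/
theorem hasDerivAt_avg {f : ℝ → ℝ} {p v : ℝ → ℝ → ℝ} (hf : Continuous f)
    (hp : ContinuousOn (fun q : ℝ × ℝ => p q.1 q.2) (Ioi 0 ×ˢ Ioo 0 1))
    (hv : ContinuousOn (fun q : ℝ × ℝ => v q.1 q.2) (Ioi 0 ×ˢ Ioo 0 1))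
    (hpos : ∀ t > 0, ∀ s ∈ Ioo (0 : ℝ) 1, 0 < p t s)
    (hder : ∀ t > 0, ∀ s ∈ Ioo (0 : ℝ) 1, HasDerivAt (p t) (v t s - f s / p t s) s)
    {a b : ℝ} (ha : 0 < a) (hab : a ≤ b) {s : ℝ} (hs : s ∈ Ioo (0 : ℝ) 1) :
    IntervalIntegrable (fun τ => v τ s - f s / p τ s) volume a b ∧
    HasDerivAt (fun s => ∫ τ in a..b, p τ s) (∫ τ in a..b, (v τ s - f s / p τ s)) s := by
  obtain ⟨δ, hδ, hball⟩ := Metric.isOpen_iff.1 (isOpen_Ioo (a := (0 : ℝ)) (b := 1)) s hs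
  have hsub : Icc (s - δ / 2) (s + δ / 2) ⊆ Ioo (0 : ℝ) 1 := by
    intro x hx
    apply hball
    rw [Metric.mem_ball, Real.dist_eq, abs_lt]
    constructor <;> linarith [hx.1, hx.2]
  have hD : ContinuousOn (fun q : ℝ × ℝ => v q.1 q.2 - f q.2 / p q.1 q.2) (Ioi 0 ×ˢ Ioo 0 1) := by
    refine hv.sub (ContinuousOn.div (hf.comp continuous_snd).continuousOn hp ?_)
    rintro ⟨t, x⟩ ⟨h1, h2⟩
    exact (hpos t h1 x h2).ne'
  have hsub2 : Icc a b ×ˢ Icc (s - δ / 2) (s + δ / 2) ⊆ Ioi 0 ×ˢ Ioo 0 1 := by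
    rintro ⟨t, x⟩ ⟨h1, h2⟩
    exact ⟨lt_of_lt_of_le ha h1.1, hsub h2⟩
  obtain ⟨M, hM⟩ := (isCompact_Icc.prod isCompact_Icc).exists_bound_of_continuousOn
    (hD.mono hsub2)
  have hcp : ∀ x ∈ Ioo (0 : ℝ) 1, ContinuousOn (fun τ => p τ x) (Icc a b) := by
    intro x hx
    refine hp.comp (f := fun τ : ℝ => ((τ, x) : ℝ × ℝ)) (by fun_prop) ?_
    intro τ hτ
    exact ⟨lt_of_lt_of_le ha hτ.1, hx⟩
  have hcd : ∀ x ∈ Ioo (0 : ℝ) 1, ContinuousOn (fun τ => v τ x - f x / p τ x) (Icc a b) := by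
    intro x hx
    refine hD.comp (f := fun τ : ℝ => ((τ, x) : ℝ × ℝ)) (by fun_prop) ?_
    intro τ hτ
    exact ⟨lt_of_lt_of_le ha hτ.1, hx⟩
  have huI : uIoc a b ⊆ Icc a b := by
    rw [uIoc_of_le hab]
    exact Ioc_subset_Icc_self
  refine intervalIntegral.hasDerivAt_integral_of_dominated_loc_of_deriv_le
    (F := fun x τ => p τ x) (F' := fun x τ => v τ x - f x / p τ x) (bound := fun _ => M)
    (s := Ioo (s - δ / 2) (s + δ / 2)) (Ioo_mem_nhds (by linarith) (by linarith)) ?_ ?_ ?_ ?_ ?_ ?_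
  · filter_upwards [Ioo_mem_nhds (show s - δ / 2 < s by linarith) (show s < s + δ / 2 by linarith)]
      with x hx
    exact ((hcp x (hsub (Ioo_subset_Icc_self hx))).mono huI).aestronglyMeasurable
      measurableSet_uIoc
  · exact (hcp s hs).intervalIntegrable_of_Icc hab
  · exact ((hcd s hs).mono huI).aestronglyMeasurable measurableSet_uIoc
  · refine Eventually.of_forall fun τ hτ x hx => ?_
    exact hM (τ, x) ⟨huI hτ, Ioo_subset_Icc_self hx⟩
  · exact intervalIntegrable_const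
  · refine Eventually.of_forall fun τ hτ x hx => ?_
    exact hder τ (lt_of_lt_of_le ha (huI hτ).1) x (hsub (Ioo_subset_Icc_self hx))

/-- lower bound of `f` near zero -/
theorem f_lower {f : ℝ → ℝ} (hf : Pool.Agent.H91.RD.Reaction f) {ε : ℝ} (hε : 0 < ε) :
    ∃ lam > 0, lam < 1 ∧ ∀ s ∈ Icc 0 lam, (Pool.Agent.H91.RF.fp f 0 - ε) * s ≤ f s := by
  have h0 : (0 : ℝ) ∈ Icc (0 : ℝ) 1 := ⟨le_refl _, zero_le_one⟩
  have hd : HasDerivWithinAt f (Pool.Agent.H91.RF.fp f 0) (Icc 0 1) 0 :=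
    (hf.smooth.differentiableOn (by norm_num) 0 h0).hasDerivWithinAt
  have h1 := (hasDerivWithinAt_iff_isLittleO.1 hd).def hε
  obtain ⟨δ, hδ, hb⟩ := Metric.mem_nhdsWithin_iff.1 h1
  refine ⟨min (δ / 2) (1 / 2), by positivity, lt_of_le_of_lt (min_le_right _ _) (by norm_num),
    fun s hs => ?_⟩
  have hs1 : s ≤ δ / 2 := hs.2.trans (min_le_left _ _)
  have hs2 : s ≤ 1 / 2 := hs.2.trans (min_le_right _ _)
  have h2 := hb ⟨by
    rw [Metric.mem_ball, Real.dist_eq, sub_zero, abs_of_nonneg hs.1]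
    linarith, ⟨hs.1, by linarith⟩⟩
  simp only [Set.mem_ofPred_eq, hf.zero, sub_zero, smul_eq_mul, Real.norm_eq_abs,
    abs_of_nonneg hs.1] at h2
  have h3 := (abs_le.1 h2).1
  nlinarith

end Pool.Agent.H89.RF
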